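import Pool.Agent.H27.L1.H83.LS.Defs

/-!
Elementary facts: the character `e`, the weight `om`, closure properties of `TC`.
-/

set_option autoImplicit false

namespace Pool.Agent.H27.L1.H83.LS

open MeasureTheory Set
open scoped ENNReal NNReal

lemma norm_e (x : ℝ) : ‖e x‖ = 1 := by
  unfold e; exact Complex.norm_exp_ofReal_mul_I _

lemma enorm_e (x : ℝ) : ‖e x‖ₑ = 1 := by
  rw [← ofReal_norm, norm_e, ENNReal.ofReal_one]

lemma e_add (x y : ℝ) : e (x + y) = e x * e y := by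
  unfold e; rw [← Complex.exp_add]; congr 1; push_cast; ring

lemma e_zero : e 0 = 1 := by unfold e; simp

lemma e_neg_mul (x : ℝ) : e (-x) * e x = 1 := by
  rw [← e_add]; simp [e_zero]

lemma e_ne_zero (x : ℝ) : e x ≠ 0 := by
  unfold e; exact Complex.exp_ne_zero _

lemma contDiff_e : ContDiff ℝ (⊤ : ℕ∞) e := by
  unfold e
  have h1 : ContDiff ℝ (⊤ : ℕ∞) (fun x : ℝ => ((2 * Real.pi * x : ℝ) : ℂ)) :=
    Complex.ofRealCLM.contDiff.comp (contDiff_const.mul contDiff_id)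
  exact Complex.contDiff_exp.comp (h1.mul contDiff_const)

lemma continuous_e : Continuous e := contDiff_e.continuous

lemma measurable_e : Measurable e := continuous_e.measurable

lemma conj_e (x : ℝ) : (starRingEnd ℂ) (e x) = e (-x) := by
  unfold e
  rw [← Complex.exp_conj, map_mul, Complex.conj_ofReal, Complex.conj_I]
  congr 1
  push_cast
  ring

lemma om_pos (r : ℝ) (hr : 0 < r) (y : ℝ × ℝ) : 0 < om r y := by
  unfold om; positivity

lemma om_le_one (r : ℝ) (hr : 0 < r) (y : ℝ × ℝ) : om r y ≤ 1 := by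
  unfold om
  apply inv_le_one_of_one_le₀
  apply one_le_pow₀
  have h1 : 1 ≤ 1 + |y.1| / r := le_add_of_nonneg_right (by positivity)
  have h2 : 1 ≤ 1 + |y.2| / r := le_add_of_nonneg_right (by positivity)
  calc (1 : ℝ) = 1 * 1 := by ring
    _ ≤ _ := mul_le_mul h1 h2 zero_le_one (by positivity)

lemma om_neg (r : ℝ) (y : ℝ × ℝ) : om r (-y) = om r y := by
  unfold om; simp

lemma measurable_om (r : ℝ) : Measurable (om r) := by
  unfold om
  fun_prop

/-- the weight varies slowly at scale `r` -/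
lemma om_shift (r : ℝ) (hr : 0 < r) (x h : ℝ × ℝ) :
    om r (x + h) ≤ ((1 + |h.1| / r) * (1 + |h.2| / r)) ^ 8 * om r x := by
  unfold om
  rw [← div_eq_mul_inv, le_div_iff₀ (by positivity), inv_mul_eq_div, div_le_iff₀ (by positivity), ← mul_pow]
  apply pow_le_pow_left₀ (by positivity)
  have key : ∀ a b : ℝ, 1 + |a| / r ≤ (1 + |b| / r) * (1 + |a + b| / r) := by
    intro a b
    have h1 : |a| ≤ |a + b| + |b| := by
      have := abs_sub_abs_le_abs_sub a (-b)
      rw [abs_neg, sub_neg_eq_add] at this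
      linarith
    have h2 : |a| / r ≤ |a + b| / r + |b| / r := by
      rw [← add_div]; exact div_le_div_of_nonneg_right h1 hr.le
    have h3 : 0 ≤ |b| / r * (|a + b| / r) := by positivity
    nlinarith
  calc (1 + |x.1| / r) * (1 + |x.2| / r)
      ≤ ((1 + |h.1| / r) * (1 + |x.1 + h.1| / r)) * ((1 + |h.2| / r) * (1 + |x.2 + h.2| / r)) :=
        mul_le_mul (key x.1 h.1) (key x.2 h.2) (by positivity) (by positivity)
    _ = _ := by simp only [Prod.fst_add, Prod.snd_add]; ring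

/-- comparison of scales: `r ≤ r' ≤ M r` -/
lemma om_mono {r r' : ℝ} (hr : 0 < r) (h : r ≤ r') (y : ℝ × ℝ) : om r y ≤ om r' y := by
  unfold om
  have hr' : 0 < r' := lt_of_lt_of_le hr h
  apply inv_anti₀ (by positivity)
  apply pow_le_pow_left₀ (by positivity)
  gcongr

lemma om_scale {r r' M : ℝ} (hr : 0 < r) (hM : 1 ≤ M) (hr' : 0 < r') (h : r' ≤ M * r) (y : ℝ × ℝ) :
    om r' y ≤ M ^ 16 * om r y := by
  unfold om
  rw [← div_eq_mul_inv, le_div_iff₀ (by positivity), inv_mul_eq_div, div_le_iff₀ (by positivity),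
    show M ^ 16 = (M ^ 2) ^ 8 by ring, ← mul_pow]
  apply pow_le_pow_left₀ (by positivity)
  have key : ∀ a : ℝ, 1 + |a| / r ≤ M * (1 + |a| / r') := by
    intro a
    have h1 : |a| / r ≤ M * (|a| / r') := by
      rw [← mul_div_assoc, div_le_div_iff₀ hr hr']
      have := abs_nonneg a
      nlinarith [mul_le_mul_of_nonneg_left h this]
    nlinarith
  calc (1 + |y.1| / r) * (1 + |y.2| / r)
      ≤ (M * (1 + |y.1| / r')) * (M * (1 + |y.2| / r')) :=
        mul_le_mul (key _) (key _) (by positivity) (by positivity)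
    _ = _ := by ring

lemma TC.mul {f g : ℝ × ℝ → ℂ} (hf : ContDiff ℝ (⊤ : ℕ∞) f) (hg : TC g) : TC (fun ζ => f ζ * g ζ) :=
  ⟨hf.mul hg.1, hg.2.mul_left⟩

lemma TC.add {f g : ℝ × ℝ → ℂ} (hf : TC f) (hg : TC g) : TC (fun ζ => f ζ + g ζ) :=
  ⟨hf.1.add hg.1, hf.2.add hg.2⟩

lemma TC.integrable {f : ℝ × ℝ → ℂ} (hf : TC f) : Integrable f :=
  hf.1.continuous.integrable_of_hasCompactSupport hf.2

lemma TC.sum {ι : Type*} (s : Finset ι) (f : ι → ℝ × ℝ → ℂ) (hf : ∀ i ∈ s, TC (f i)) :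
    TC (fun ζ => ∑ i ∈ s, f i ζ) := by
  classical
  induction s using Finset.induction_on with
  | empty => exact ⟨by simpa using contDiff_const, HasCompactSupport.zero⟩
  | insert a s ha ih =>
    have h1 := TC.add (hf a (Finset.mem_insert_self a s))
      (ih (fun i hi => hf i (Finset.mem_insert_of_mem hi)))
    simpa [Finset.sum_insert ha] using h1

lemma integrable_e_mul {b : ℝ × ℝ → ℂ} (hb : Integrable b) (y : ℝ × ℝ) :
    Integrable (fun ζ : ℝ × ℝ => e (y.1 * ζ.1 + y.2 * ζ.2) * b ζ) := by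
  apply hb.bdd_mul (c := 1)
  · exact (continuous_e.comp (by fun_prop)).aestronglyMeasurable
  · exact Filter.Eventually.of_forall (fun ζ => (norm_e _).le)

lemma Fi_add {f g : ℝ × ℝ → ℂ} (hf : Integrable f) (hg : Integrable g) (y : ℝ × ℝ) :
    Fi (fun ζ => f ζ + g ζ) y = Fi f y + Fi g y := by
  unfold Fi
  rw [← integral_add (integrable_e_mul hf y) (integrable_e_mul hg y)]
  congr 1; ext ζ; ring

lemma Fi_sum {ι : Type*} (s : Finset ι) (f : ι → ℝ × ℝ → ℂ) (hf : ∀ i ∈ s, Integrable (f i))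
    (y : ℝ × ℝ) : Fi (fun ζ => ∑ i ∈ s, f i ζ) y = ∑ i ∈ s, Fi (f i) y := by
  unfold Fi
  rw [← integral_finsetSum s (fun i hi => integrable_e_mul (hf i hi) y)]
  congr 1; ext ζ
  rw [Finset.mul_sum]

lemma norm_Fi_le (b : ℝ × ℝ → ℂ) (y : ℝ × ℝ) : ‖Fi b y‖ ≤ ∫ ζ, ‖b ζ‖ := by
  unfold Fi
  refine (norm_integral_le_integral_norm _).trans (le_of_eq ?_)
  congr 1; ext ζ
  rw [norm_mul, norm_e, one_mul]

lemma U_zero (a : ℝ) (b : ℝ × ℝ → ℂ) : U a 0 b = Fi b := by
  funext y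
  unfold U
  congr 1
  funext ζ
  rw [zero_mul, e_zero, one_mul]

lemma U_add (a s h : ℝ) (b : ℝ × ℝ → ℂ) (y : ℝ × ℝ) :
    U a (s + h) b y = Fi (fun ζ => e (h * ph a ζ) * (e (s * ph a ζ) * b ζ)) y := by
  unfold U
  congr 1
  funext ζ
  rw [add_mul, e_add]; ring

lemma TS.mul {S : Set (ℝ × ℝ)} {f g : ℝ × ℝ → ℂ} (hf : ContDiff ℝ (⊤ : ℕ∞) f) (hg : TS S g) :
    TS S (fun ζ => f ζ * g ζ) :=
  ⟨TC.mul hf hg.1, fun ζ h => hg.2 ζ (right_ne_zero_of_mul h)⟩

end Pool.Agent.H27.L1.H83.LS
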