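import Mathlib

/-!
Local smoothing for axially symmetric data: definitions for the two dimensional part.
The plane is `ℝ × ℝ` (sup norm), `e x = exp(2πix)`.
-/

set_option autoImplicit false

namespace Pool.Agent.H27.L1.H83.LS

open MeasureTheory Set
open scoped ENNReal

/-- `e x = exp(2πix)` -/
noncomputable def e (x : ℝ) : ℂ := Complex.exp (((2 * Real.pi * x : ℝ) : ℂ) * Complex.I)

/-- smooth with compact support -/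
def TC (b : ℝ × ℝ → ℂ) : Prop := ContDiff ℝ (⊤ : ℕ∞) b ∧ HasCompactSupport b

/-- bounded measurable functions with compact support -/
def BC (g : ℝ × ℝ → ℂ) : Prop :=
  Measurable g ∧ (∃ A : ℝ, ∀ y, ‖g y‖ ≤ A) ∧ (∃ R : ℝ, ∀ y, R < ‖y‖ → g y = 0)

/-- inverse Fourier transform in the plane -/
noncomputable def Fi (b : ℝ × ℝ → ℂ) (y : ℝ × ℝ) : ℂ :=
  ∫ ζ : ℝ × ℝ, e (y.1 * ζ.1 + y.2 * ζ.2) * b ζ

/-- Fourier transform in the plane -/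
noncomputable def Ff (g : ℝ × ℝ → ℂ) (ζ : ℝ × ℝ) : ℂ :=
  ∫ y : ℝ × ℝ, e (-(y.1 * ζ.1 + y.2 * ζ.2)) * g y

/-- square of the `L²` norm -/
noncomputable def l2 (b : ℝ × ℝ → ℂ) : ℝ≥0∞ := ∫⁻ ζ, ‖b ζ‖ₑ ^ 2

/-- sup norm -/
noncomputable def supn (g : ℝ × ℝ → ℂ) : ℝ≥0∞ := ⨆ y, ‖g y‖ₑ

/-- the weight `((1+|y₁|/r)(1+|y₂|/r))^(-8)` -/
noncomputable def om (r : ℝ) (y : ℝ × ℝ) : ℝ := (((1 + |y.1| / r) * (1 + |y.2| / r)) ^ 8)⁻¹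

/-- weighted energy around `y₀` at scale `r` -/
noncomputable def En (r : ℝ) (y₀ : ℝ × ℝ) (g : ℝ × ℝ → ℂ) : ℝ≥0∞ :=
  ∫⁻ y, ENNReal.ofReal (om r (y - y₀)) * ‖g y‖ₑ ^ 2

/-- the normalized phases `φ_a(ζ) = a⁻²(√(ζ₁²+a²ζ₂²) - ζ₁) = ζ₂²/(√(ζ₁²+a²ζ₂²)+ζ₁)` -/
noncomputable def ph (a : ℝ) (ζ : ℝ × ℝ) : ℝ :=
  ζ.2 ^ 2 / (Real.sqrt (ζ.1 ^ 2 + a ^ 2 * ζ.2 ^ 2) + ζ.1)

/-- `φ_a(1, σ)` -/
noncomputable def hh (a σ : ℝ) : ℝ := σ ^ 2 / (Real.sqrt (1 + a ^ 2 * σ ^ 2) + 1)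

/-- derivative of `hh a` -/
noncomputable def dh (a σ : ℝ) : ℝ := σ / Real.sqrt (1 + a ^ 2 * σ ^ 2)

/-- gradient of `φ_a` on the ray of slope `σ` -/
noncomputable def gr (a σ : ℝ) : ℝ × ℝ := (hh a σ - σ * dh a σ, dh a σ)

/-- normalized evolution `U_s b(y) = ∫ e(y·ζ + sφ_a(ζ)) b(ζ) dζ` -/
noncomputable def U (a s : ℝ) (b : ℝ × ℝ → ℂ) (y : ℝ × ℝ) : ℂ :=
  Fi (fun ζ => e (s * ph a ζ) * b ζ) y

/-- the normalized frequency region -/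
def QQ : Set (ℝ × ℝ) := {ζ | 1 / 4 ≤ ζ.1 ∧ ζ.1 ≤ 2 ∧ |ζ.2| ≤ ζ.1}

/-- `b` is smooth, compactly supported and supported in `S` -/
def TS (S : Set (ℝ × ℝ)) (b : ℝ × ℝ → ℂ) : Prop := TC b ∧ ∀ ζ, b ζ ≠ 0 → ζ ∈ S

/-- partition function on the line: `∑ⱼ psi (x - j) = 1`, support in `[-1,1]` -/
noncomputable def psi (x : ℝ) : ℝ := Real.smoothTransition (x + 1) - Real.smoothTransition x

/-- `1` on `[-1,1]`, support in `[-2,2]` -/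
noncomputable def psi2 (x : ℝ) : ℝ := psi (x - 1) + psi x + psi (x + 1)

/-- cutoff in `ζ₁`: `1` on `[1/4,2]`, support in `[1/8,4]` -/
noncomputable def XX (x : ℝ) : ℝ :=
  Real.smoothTransition (8 * x - 1) * Real.smoothTransition ((4 - x) / 2)

/-- sector cutoff of aperture `μ` around slope `s₀` -/
noncomputable def sc (μ s₀ : ℝ) (ζ : ℝ × ℝ) : ℂ :=
  ((XX ζ.1 * psi ((ζ.2 - s₀ * ζ.1) / (μ * ζ.1)) : ℝ) : ℂ)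

/-- isotropic cap of side `1/ℓ` around `c/ℓ` -/
noncomputable def cp (l : ℝ) (c : ℤ × ℤ) (ζ : ℝ × ℝ) : ℂ :=
  ((psi (l * ζ.1 - c.1) * psi (l * ζ.2 - c.2) : ℝ) : ℂ)

/-- fattened cap -/
noncomputable def cpf (l : ℝ) (c : ℤ × ℤ) (ζ : ℝ × ℝ) : ℂ :=
  ((psi2 (l * ζ.1 - c.1) * psi2 (l * ζ.2 - c.2) : ℝ) : ℂ)

/-- caps meeting the region `QQ` (and a few more) -/
noncomputable def capsQ (l : ℝ) : Finset (ℤ × ℤ) :=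
  (Finset.Icc (-⌈3 * l⌉) ⌈3 * l⌉ ×ˢ Finset.Icc (-⌈3 * l⌉) ⌈3 * l⌉).filter
    (fun c => l / 4 - 1 ≤ (c.1 : ℝ) ∧ (c.1 : ℝ) ≤ 2 * l + 1 ∧ |(c.2 : ℝ)| ≤ (c.1 : ℝ) + 2)

/-- weighted tail of the kernel with symbol `χ` away from the point `c` at scale `r` -/
noncomputable def tailI (r : ℝ) (c : ℝ × ℝ) (χ : ℝ × ℝ → ℂ) : ℝ≥0∞ :=
  ∫⁻ z in {z : ℝ × ℝ | r ≤ ‖z - c‖}, ‖Fi χ z‖ₑ *
    ENNReal.ofReal (((1 + |z.1 - c.1| / r) * (1 + |z.2 - c.2| / r)) ^ 4)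

end Pool.Agent.H27.L1.H83.LS
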