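import Pool.Agent.H27.L1.H83.LS.Defs

/-!
Local smoothing for axially symmetric data: targets of wave 1 (normalized plane).
One Prop per module.
-/

set_option autoImplicit false

namespace Pool.Agent.H27.L1.H83.LS

open MeasureTheory Set
open scoped ENNReal NNReal

/-- PL: Plancherel and Fourier inversion -/
def T_PL : Prop := (∀ b, TC b → ∫⁻ y, ‖Fi b y‖ₑ ^ 2 = l2 b) ∧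
  (∀ b, TC b → Integrable (Fi b) ∧ ∀ ζ, Ff (Fi b) ζ = b ζ)

/-- YG: Young's inequality on groups -/
def T_YG : Prop := ∀ (G : Type) [AddCommGroup G] [MeasurableSpace G] [MeasurableAdd₂ G]
  [MeasurableNeg G] (μ : Measure G) [SFinite μ] [μ.IsAddLeftInvariant] [μ.IsNegInvariant]
  (k H : G → ℝ≥0∞) (p : ℝ), Measurable k → Measurable H → 1 ≤ p →
  ∫⁻ y, (∫⁻ y', k (y - y') * H y' ∂μ) ^ p ∂μ ≤ (∫⁻ y, k y ∂μ) ^ p * ∫⁻ y, H y ^ p ∂μ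

/-- DEC -/
def T_DEC : Prop := ∀ b, TC b → Continuous (Fi b) ∧
  ∀ N : ℕ, ∃ C : ℝ, ∀ y : ℝ × ℝ, ‖Fi b y‖ * ((1 + |y.1|) * (1 + |y.2|)) ^ N ≤ C

/-- CONV -/
def T_CONV : Prop := ∀ χ b, TC χ → TC b → ∀ y,
  Fi (fun ζ => χ ζ * b ζ) y = ∫ y', Fi χ (y - y') * Fi b y'

/-- PLB -/
def T_PLB : Prop := ∀ g, BC g → ContDiff ℝ (⊤ : ℕ∞) (Ff g) ∧
  (∫⁻ ζ, ‖Ff g ζ‖ₑ ^ 2 = ∫⁻ y, ‖g y‖ₑ ^ 2) ∧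
  ∀ χ, TC χ → ∀ y, Fi (fun ζ => χ ζ * Ff g ζ) y = ∫ y', Fi χ (y - y') * g y'

/-- KB: kernel decay, uniform over compact sets of parameters -/
def T_KB : Prop := ∀ (m : ℕ) (K O : Set (Fin m → ℝ)) (Ψ : (Fin m → ℝ) × (ℝ × ℝ) → ℂ) (R : ℝ),
  IsCompact K → IsOpen O → K ⊆ O → ContDiffOn ℝ (⊤ : ℕ∞) Ψ (O ×ˢ univ) →
  (∀ p ∈ O, ∀ ζ : ℝ × ℝ, R < ‖ζ‖ → Ψ (p, ζ) = 0) →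
  ∀ N : ℕ, ∃ C : ℝ, ∀ p ∈ K, ∀ y : ℝ × ℝ,
    ‖Fi (fun ζ => Ψ (p, ζ)) y‖ * ((1 + |y.1|) * (1 + |y.2|)) ^ N ≤ C

/-- TCU -/
def T_TCU : Prop := ∀ a ∈ Icc (0 : ℝ) 1, ∀ (s : ℝ) (b : ℝ × ℝ → ℂ), TC b →
  (∀ ζ, b ζ ≠ 0 → 1 / 16 ≤ ζ.1) → TC (fun ζ => e (s * ph a ζ) * b ζ)

/-- CUT: elementary facts on the cutoffs -/
def T_CUT : Prop :=
  (∀ μ s₀ : ℝ, 0 < μ → TC (sc μ s₀) ∧ (∀ ζ, ‖sc μ s₀ ζ‖ ≤ 1) ∧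
    ∀ ζ, sc μ s₀ ζ ≠ 0 → 1 / 8 ≤ ζ.1 ∧ ζ.1 ≤ 4 ∧ |ζ.2 - s₀ * ζ.1| ≤ μ * ζ.1) ∧
  (∀ (μ : ℝ) (J : ℤ), 0 < μ → 1 / μ + 1 ≤ J → ∀ ζ ∈ QQ,
    ∑ j ∈ Finset.Icc (-J) J, sc μ (j * μ) ζ = 1) ∧
  (∀ (l : ℝ) (c : ℤ × ℤ), 0 < l → TC (cp l c) ∧ TC (cpf l c) ∧
    (∀ ζ, ‖cp l c ζ‖ ≤ 1) ∧ (∀ ζ, cpf l c ζ * cp l c ζ = cp l c ζ) ∧
    (∀ ζ, cp l c ζ ≠ 0 → |l * ζ.1 - c.1| ≤ 1 ∧ |l * ζ.2 - c.2| ≤ 1) ∧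
    (∀ ζ, cpf l c ζ ≠ 0 → |l * ζ.1 - c.1| ≤ 2 ∧ |l * ζ.2 - c.2| ≤ 2)) ∧
  (∀ l : ℝ, 64 ≤ l → ∀ ζ ∈ QQ, ∑ c ∈ capsQ l, cp l c ζ = 1) ∧
  (∀ l : ℝ, 64 ≤ l → ((capsQ l).card : ℝ) ≤ 1000 * l ^ 2)

/-- ORTH: local orthogonality at scale `r` for frequency supports whose `2/r` neighbourhoods have
bounded overlap -/
def T_ORTH : Prop := ∃ C : ℝ≥0, ∀ (ι : Type) [Fintype ι] (b : ι → ℝ × ℝ → ℂ) (r : ℝ) (y₀ : ℝ × ℝ)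
  (m : ℕ), 0 < r → (∀ i, TC (b i)) →
  (∀ ζ : ℝ × ℝ, {i : ι | ∃ ζ' : ℝ × ℝ, b i ζ' ≠ 0 ∧ |ζ'.1 - ζ.1| ≤ 2 / r ∧
    |ζ'.2 - ζ.2| ≤ 2 / r}.ncard ≤ m) →
  En r y₀ (Fi (fun ζ => ∑ i, b i ζ)) ≤ C * m * ∑ i, En r y₀ (Fi (b i))

/-- LE: weighted `L²` bound for families of multipliers -/
def T_LE : Prop := ∃ C : ℝ≥0, ∀ (ι : Type) [Fintype ι] (χ : ι → ℝ × ℝ → ℂ) (r : ℝ)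
  (c y₀ : ℝ × ℝ) (m A : ℝ≥0∞) (b : ℝ × ℝ → ℂ), 0 < r → (∀ i, TC (χ i)) → TC b →
  (∀ ζ, ∑ i, ‖χ i ζ‖ₑ ^ 2 ≤ m) → (∑ i, (tailI r c (χ i)) ^ 2 ≤ A) →
  ∑ i, En r y₀ (Fi (fun ζ => χ i ζ * b ζ)) ≤ C * (m + A) * En r (y₀ - c) (Fi b)

/-- SECK: kernels of planks -/
def T_SECK : Prop := ∀ N : ℕ, ∃ C : ℝ, ∀ a ∈ Icc (0 : ℝ) 1, ∀ μ ∈ Ioc (0 : ℝ) 1,
  ∀ s₀ ∈ Icc (-4 : ℝ) 4, ∀ s : ℝ, |s| * μ ^ 2 ≤ 1 → ∀ y : ℝ × ℝ,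
    ‖U a s (sc μ s₀) y‖ * ((1 + |y.1 + s₀ * y.2 + s * hh a s₀|) *
      (1 + μ * |y.2 + s * dh a s₀|)) ^ N ≤ C * μ

/-- SEC1: `L¹` norm and tails of the kernels of planks -/
def T_SEC1 : Prop :=
  (∃ C : ℝ≥0, ∀ a ∈ Icc (0 : ℝ) 1, ∀ μ ∈ Ioc (0 : ℝ) 1, ∀ s₀ ∈ Icc (-4 : ℝ) 4, ∀ s : ℝ,
    |s| * μ ^ 2 ≤ 1 → ∫⁻ y, ‖U a s (sc μ s₀) y‖ₑ ≤ C) ∧
  (∀ N : ℕ, ∃ C : ℝ, ∀ a ∈ Icc (0 : ℝ) 1, ∀ μ ∈ Ioc (0 : ℝ) 1, ∀ s₀ ∈ Icc (-4 : ℝ) 4,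
    ∀ s r : ℝ, |s| * μ ^ 2 ≤ 1 → 1 / μ ≤ r →
    tailI r (-(s • gr a s₀)) (fun ζ => e (s * ph a ζ) * sc μ s₀ ζ) ≤
      ENNReal.ofReal (C / (μ * r) ^ N))

/-- admissible caps -/
def okc (l : ℝ) (c : ℤ × ℤ) : Prop :=
  64 ≤ l ∧ l / 8 ≤ (c.1 : ℝ) ∧ (c.1 : ℝ) ≤ 4 * l ∧ |(c.2 : ℝ)| ≤ 2 * (c.1 : ℝ)

/-- CAPK: kernels of isotropic caps, times up to `l²` -/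
def T_CAPK : Prop := ∀ N : ℕ, ∃ C : ℝ, ∀ a ∈ Icc (0 : ℝ) 1, ∀ (l h : ℝ) (c : ℤ × ℤ), okc l c →
  |h| ≤ l ^ 2 → ∀ y : ℝ × ℝ,
    ‖U a h (cpf l c) y‖ *
      ((1 + |(y + h • gr a ((c.2 : ℝ) / c.1)).1| / l) *
        (1 + |(y + h • gr a ((c.2 : ℝ) / c.1)).2| / l)) ^ N ≤ C / l ^ 2

/-- CAPT: transport of the energy of a cap -/
def T_CAPT : Prop := ∃ C : ℝ≥0, ∀ a ∈ Icc (0 : ℝ) 1, ∀ (l h s : ℝ) (c : ℤ × ℤ) (y₀ : ℝ × ℝ)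
  (b : ℝ × ℝ → ℂ), okc l c → |h| ≤ l ^ 2 → TS QQ b →
  En l y₀ (U a (s + h) (fun ζ => cp l c ζ * b ζ)) ≤
    C * En l (y₀ + h • gr a ((c.2 : ℝ) / c.1)) (U a s (fun ζ => cp l c ζ * b ζ))

/-- REVC: reverse square function for caps -/
def T_REVC : Prop := ∃ C : ℝ≥0, ∀ a ∈ Icc (0 : ℝ) 1, ∀ (l r s : ℝ) (y₀ : ℝ × ℝ)
  (b : ℝ × ℝ → ℂ), 64 ≤ l → l ^ 2 ≤ r → TS QQ b →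
  ∑ c ∈ capsQ l, En r y₀ (U a s (fun ζ => cp l c ζ * b ζ)) ≤ C * En r y₀ (U a s b)

/-- CORTH: local orthogonality of caps -/
def T_CORTH : Prop := ∃ C : ℝ≥0, ∀ a ∈ Icc (0 : ℝ) 1, ∀ (l s : ℝ) (y₀ : ℝ × ℝ)
  (b : ℝ × ℝ → ℂ), 64 ≤ l → TS QQ b →
  En l y₀ (U a s b) ≤ C * ∑ c ∈ capsQ l, En l y₀ (U a s (fun ζ => cp l c ζ * b ζ))

/-- determinant of three velocities -/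
def det3 (v : Fin 3 → ℝ × ℝ) : ℝ :=
  ((v 1).1 - (v 0).1) * ((v 2).2 - (v 0).2) - ((v 1).2 - (v 0).2) * ((v 2).1 - (v 0).1)

/-- LW: Loomis-Whitney for three transversal directions -/
def T_LW : Prop := ∀ (v : Fin 3 → ℝ × ℝ) (D : ℝ) (f : Fin 3 → ℝ × ℝ → ℝ≥0∞), 0 < D →
  D ≤ |det3 v| → (∀ i, Measurable (f i)) →
  ∫⁻ t : ℝ, ∫⁻ x : ℝ × ℝ, ∏ i, (f i (x - t • v i)) ^ (1 / 2 : ℝ) ≤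
    ENNReal.ofReal (D ^ (-(1 / 2) : ℝ)) * ∏ i, (∫⁻ y, f i y) ^ (1 / 2 : ℝ)

/-- sums of weighted tubes of width `ρ` -/
noncomputable def tub (ρ : ℝ) (I : Finset (ℤ × ℤ)) (v : ℤ × ℤ → ℝ × ℝ)
    (g : ℤ × ℤ → ℝ × ℝ → ℝ≥0∞) (x : ℝ × ℝ) (t : ℝ) : ℝ≥0∞ :=
  ∑ c ∈ I, ∫⁻ y, ENNReal.ofReal (om ρ (x - y - t • v c)) * g c y

/-- DET: velocities on the light cone are transversal -/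
def T_DET : Prop :=
  (∀ κ : ℝ, 0 < κ → ∃ D : ℝ, 0 < D ∧ ∀ a ∈ Icc (0 : ℝ) 1, ∀ s : Fin 3 → ℝ, (∀ i, |s i| ≤ 1) →
    (∀ i j, i ≠ j → κ ≤ |s i - s j|) → D ≤ |det3 (fun i => -gr a (s i))|) ∧
  (∀ a ∈ Icc (0 : ℝ) 1, ∀ σ σ' : ℝ, |σ| ≤ 4 → |σ'| ≤ 4 →
    ‖gr a σ - gr a σ'‖ ≤ 4 * |σ - σ'|) ∧
  (∀ a ∈ Icc (0 : ℝ) 1, ∀ σ : ℝ, |σ| ≤ 4 → ‖gr a σ‖ ≤ 8 ∧ (|σ| ≤ 2 → ‖gr a σ‖ ≤ 2))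

/-- MK: multilinear Kakeya in `ℝ³` (Guth's argument) -/
def T_MK : Prop := ∀ D : ℝ, 0 < D → ∃ C : ℝ, 1 ≤ C ∧ ∀ (δ : ℝ) (I : Fin 3 → Finset (ℤ × ℤ))
  (v₀ : Fin 3 → ℝ × ℝ) (v : Fin 3 → ℤ × ℤ → ℝ × ℝ) (g : Fin 3 → ℤ × ℤ → ℝ × ℝ → ℝ≥0∞)
  (ρ R : ℝ) (x₀ : ℝ × ℝ) (t₀ : ℝ), 0 < δ → δ ≤ 1 / 2 → (∀ i, ‖v₀ i‖ ≤ 4) → D ≤ |det3 v₀| →
  (∀ i, ∀ c ∈ I i, ‖v i c - v₀ i‖ ≤ δ) → (∀ i c, Measurable (g i c)) → 1 ≤ ρ → ρ ≤ R →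
  ∫⁻ t in Icc (t₀ - R) (t₀ + R), ∫⁻ x in Metric.closedBall x₀ R,
      ∏ i, (tub ρ (I i) (v i) (g i) x t) ^ (1 / 2 : ℝ) ≤
    ENNReal.ofReal (C ^ (2 + Real.log (R / ρ) / Real.log (1 / δ)) * ρ ^ 3) *
      ∏ i, (tub R (I i) (v i) (g i) x₀ t₀) ^ (1 / 2 : ℝ)

/-- the triple integral over a cube of side `r` around `(y₀,s₀)` -/
noncomputable def tri (a r s₀ : ℝ) (y₀ : ℝ × ℝ) (b : Fin 3 → ℝ × ℝ → ℂ) : ℝ≥0∞ :=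
  ∫⁻ t in Icc (s₀ - r) (s₀ + r), ∫⁻ y in Metric.closedBall y₀ r, ∏ i, ‖U a t (b i) y‖ₑ

/-- BASE: small balls -/
def T_BASE : Prop := ∀ r₀ : ℝ, 1 ≤ r₀ → ∃ C : ℝ≥0, ∀ a ∈ Icc (0 : ℝ) 1, ∀ (r s₀ : ℝ)
  (y₀ : ℝ × ℝ) (b : Fin 3 → ℝ × ℝ → ℂ), 1 ≤ r → r ≤ r₀ → (∀ i, TS QQ (b i)) →
  tri a r s₀ y₀ b ≤ C * ∏ i, (En r y₀ (U a s₀ (b i))) ^ (1 / 2 : ℝ)

/-- IND: one step of the induction on scales, `r → √r` -/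
def T_IND : Prop := ∀ κ : ℝ, 0 < κ → ∃ C : ℝ, 1 ≤ C ∧ ∀ δ : ℝ, 0 < δ → δ ≤ 1 / 1000 →
  ∀ a ∈ Icc (0 : ℝ) 1, ∀ (s : Fin 3 → ℝ) (r T : ℝ), (∀ i, |s i| ≤ 1) →
  (∀ i j, i ≠ j → κ ≤ |s i - s j|) → (64 / δ) ^ 2 ≤ r → 0 ≤ T →
  (∀ (s₀ : ℝ) (y₀ : ℝ × ℝ) (b : Fin 3 → ℝ × ℝ → ℂ),
    (∀ i, TS {ζ | ζ ∈ QQ ∧ |ζ.2 - s i * ζ.1| ≤ δ * ζ.1} (b i)) →
    tri a (Real.sqrt r) s₀ y₀ b ≤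
      ENNReal.ofReal T * ∏ i, (En (Real.sqrt r) y₀ (U a s₀ (b i))) ^ (1 / 2 : ℝ)) →
  ∀ (s₀ : ℝ) (y₀ : ℝ × ℝ) (b : Fin 3 → ℝ × ℝ → ℂ),
    (∀ i, TS {ζ | ζ ∈ QQ ∧ |ζ.2 - s i * ζ.1| ≤ δ * ζ.1} (b i)) →
    tri a r s₀ y₀ b ≤
      ENNReal.ofReal (C ^ (3 + Real.log r / Real.log (1 / δ)) * T) *
        ∏ i, (En r y₀ (U a s₀ (b i))) ^ (1 / 2 : ℝ)

/-- TL: trilinear restriction for narrow sectors -/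
def T_TL : Prop := ∀ κ η : ℝ, 0 < κ → 0 < η → ∃ δ : ℝ, 0 < δ ∧ δ ≤ 1 / 1000 ∧ ∃ C : ℝ≥0,
  ∀ a ∈ Icc (0 : ℝ) 1, ∀ (s : Fin 3 → ℝ) (r s₀ : ℝ) (y₀ : ℝ × ℝ) (b : Fin 3 → ℝ × ℝ → ℂ),
  (∀ i, |s i| ≤ 1) → (∀ i j, i ≠ j → κ ≤ |s i - s j|) → 1 ≤ r →
  (∀ i, TS {ζ | ζ ∈ QQ ∧ |ζ.2 - s i * ζ.1| ≤ δ * ζ.1} (b i)) →
  tri a r s₀ y₀ b ≤
    C * ENNReal.ofReal (r ^ η) * ∏ i, (En r y₀ (U a s₀ (b i))) ^ (1 / 2 : ℝ)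

/-- TLK: trilinear restriction for the children of a sector -/
def T_TLK : Prop := ∀ (K : ℕ) (η : ℝ), 1 ≤ K → 0 < η → ∃ C : ℝ≥0,
  ∀ a ∈ Icc (0 : ℝ) 1, ∀ (s : Fin 3 → ℝ) (r s₀ : ℝ) (y₀ : ℝ × ℝ) (b : Fin 3 → ℝ × ℝ → ℂ),
  (∀ i j, i ≠ j → 3 / (2 * K : ℝ) ≤ |s i - s j|) → 1 ≤ r →
  (∀ i, TS {ζ | ζ ∈ QQ ∧ |ζ.2 - s i * ζ.1| ≤ ζ.1 / (2 * K)} (b i)) →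
  tri a r s₀ y₀ b ≤
    C * ENNReal.ofReal (r ^ η) * ∏ i, (En r y₀ (U a s₀ (b i))) ^ (1 / 2 : ℝ)

/-- LEC: comparison of local energies at nearby times -/
def T_LEC : Prop := ∃ C : ℝ≥0, ∀ a ∈ Icc (0 : ℝ) 1, ∀ (s h r : ℝ) (y₀ : ℝ × ℝ)
  (b : ℝ × ℝ → ℂ), 1 ≤ r → |h| ≤ r → TS QQ b →
  En r y₀ (U a (s + h) b) ≤ C * En r y₀ (U a s b)

/-- SUPB: local energy in terms of the sup norm of the data -/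
def T_SUPB : Prop := ∃ C : ℝ≥0, ∀ a ∈ Icc (0 : ℝ) 1, ∀ (s r : ℝ) (y₀ : ℝ × ℝ)
  (b : ℝ × ℝ → ℂ), 1 ≤ r → TS QQ b →
  En r y₀ (U a s b) ≤ C * ENNReal.ofReal (r * (r + |s|)) * (supn (Fi b)) ^ 2

/-- LINF: sup norm of a sector of aperture `μ` -/
def T_LINF : Prop := ∃ C : ℝ≥0, ∀ a ∈ Icc (0 : ℝ) 1, ∀ (s : ℝ) (b : ℝ × ℝ → ℂ), TS QQ b →
  supn (U a s b) ≤ C * ENNReal.ofReal (Real.sqrt (1 + |s|)) * supn (Fi b)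

/-- BROAD: the broad part -/
def T_BROAD : Prop := ∀ (p : ℝ) (K : ℕ) (η : ℝ) (Cw : ℝ≥0), 2 < p → p ≤ 3 → 1 ≤ K → 0 < η →
  ∃ C : ℝ≥0, ∀ a ∈ Icc (0 : ℝ) 1, ∀ (r S : ℝ) (w : (ℝ × ℝ) × ℝ → ℝ≥0∞) (A : ℝ≥0∞)
  (s : Fin 3 → ℝ) (b : Fin 3 → ℝ × ℝ → ℂ), 1 ≤ r → r ≤ S → Measurable w →
  (∀ z z' : (ℝ × ℝ) × ℝ, w z' ≤
    Cw * ENNReal.ofReal ((1 + (‖z'.1 - z.1‖ + |z'.2 - z.2|) / r) ^ 2) * w z) →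
  (∀ i j, i ≠ j → 3 / (2 * K : ℝ) ≤ |s i - s j|) →
  (∀ i, TS {ζ | ζ ∈ QQ ∧ |ζ.2 - s i * ζ.1| ≤ ζ.1 / (2 * K)} (b i)) →
  (∀ i, ∫⁻ t in Icc (-(4 * S)) (4 * S), ∫⁻ y, w (y, t) * ‖U a t (b i) y‖ₑ ^ 2 ≤
    A * ENNReal.ofReal r * l2 (b i)) →
  ∫⁻ t in Icc 0 S, ∫⁻ y, w (y, t) * (∏ i, ‖U a t (b i) y‖ₑ) ^ (p / 3) ≤
    C * A * ENNReal.ofReal (r ^ (3 - p + η) * (r * S) ^ (p / 2 - 1)) *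
      (∏ i, (supn (Fi (b i))) ^ (p - 2) * l2 (b i)) ^ (1 / 3 : ℝ)

/-- BN: broad or narrow -/
def T_BN : Prop := ∀ M : ℕ, ∃ C : ℝ≥0, ∀ (p : ℝ) (z : Fin M → ℂ), 2 ≤ p → p ≤ 3 →
  ‖∑ j, z j‖ₑ ^ p ≤ 8000 * ∑ j, ‖z j‖ₑ ^ p +
    C * ∑ t ∈ (Finset.univ : Finset (Fin M × Fin M × Fin M)).filter
      (fun t => 3 ≤ |(t.1 : ℤ) - (t.2.1 : ℤ)| ∧ 3 ≤ |(t.1 : ℤ) - (t.2.2 : ℤ)| ∧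
        3 ≤ |(t.2.1 : ℤ) - (t.2.2 : ℤ)|),
      (‖z t.1‖ₑ * ‖z t.2.1‖ₑ * ‖z t.2.2‖ₑ) ^ (p / 3)

end Pool.Agent.H27.L1.H83.LS
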