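import Pool.Agent.H27.L1.H83.LS.Targets1

/-!
Local smoothing for axially symmetric data: targets of wave 2 (the wave group in the plane).
-/

set_option autoImplicit false

namespace Pool.Agent.H27.L1.H83.LS

open MeasureTheory Set
open scoped ENNReal NNReal

/-- half wave evolution in the plane -/
noncomputable def W (t : ℝ) (b : ℝ × ℝ → ℂ) (x : ℝ × ℝ) : ℂ :=
  ∫ ξ : ℝ × ℝ, e (x.1 * ξ.1 + x.2 * ξ.2 + t * Real.sqrt (ξ.1 ^ 2 + ξ.2 ^ 2)) * b ξ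

/-- sector of aperture `a` around the direction of angle `θ` -/
def tau (θ a : ℝ) : Set (ℝ × ℝ) :=
  {ξ | 1 / 4 ≤ ξ.1 ^ 2 + ξ.2 ^ 2 ∧ ξ.1 ^ 2 + ξ.2 ^ 2 ≤ 4 ∧
    |-(ξ.1 * Real.sin θ) + ξ.2 * Real.cos θ| ≤ a * (ξ.1 * Real.cos θ + ξ.2 * Real.sin θ)}

/-- Lorentz rescaling on the frequency side -/
noncomputable def lor (θ a : ℝ) (b : ℝ × ℝ → ℂ) (ζ : ℝ × ℝ) : ℂ :=
  (a : ℂ) * b (ζ.1 * Real.cos θ - a * ζ.2 * Real.sin θ, ζ.1 * Real.sin θ + a * ζ.2 * Real.cos θ)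

/-- LOR -/
def T_LOR : Prop := ∀ (θ a : ℝ) (b : ℝ × ℝ → ℂ), 0 < a → a ≤ 1 → TS (tau θ a) b →
  TS QQ (lor θ a b) ∧
  (∀ (t : ℝ) (x : ℝ × ℝ), W t b x = U a (a ^ 2 * t) (lor θ a b)
    (x.1 * Real.cos θ + x.2 * Real.sin θ + t, a * (-(x.1 * Real.sin θ) + x.2 * Real.cos θ))) ∧
  l2 (lor θ a b) = ENNReal.ofReal a * l2 b ∧ supn (Fi (lor θ a b)) = supn (Fi b)

/-- LORV: change of variables in space-time -/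
def T_LORV : Prop := ∀ (θ a : ℝ) (Φ : (ℝ × ℝ) × ℝ → ℝ≥0∞), 0 < a → Measurable Φ →
  ∫⁻ t : ℝ, ∫⁻ x : ℝ × ℝ, Φ ((x.1 * Real.cos θ + x.2 * Real.sin θ + t,
      a * (-(x.1 * Real.sin θ) + x.2 * Real.cos θ)), a ^ 2 * t) =
    ENNReal.ofReal (a ^ (-3 : ℤ)) * ∫⁻ s : ℝ, ∫⁻ y : ℝ × ℝ, Φ (y, s)

/-- hypotheses on the weight `w(x₁)` and the frequency region `S` -/
def Hyp (κ ρ R : ℝ) (A₀ : ℝ≥0) (w : ℝ → ℝ≥0∞) (S : Set (ℝ × ℝ)) : Prop :=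
  0 < κ ∧ κ ≤ 1 ∧ 0 < ρ ∧ ρ ≤ 1 ∧ 1 ≤ R ∧ Measurable w ∧
  (∀ x h : ℝ, w (x + h) ≤ ENNReal.ofReal ((1 + |h| / (κ * ρ * R)) ^ 2) * w x) ∧
  (∀ b, TS S b → ∫⁻ t in Icc (-(8 * R)) (8 * R), ∫⁻ x : ℝ × ℝ, w x.1 * ‖W t b x‖ₑ ^ 2 ≤
    A₀ * ENNReal.ofReal (ρ * R) * l2 b)

/-- the estimate for sectors of aperture `α` with constant `A` -/
def PS (p κ R : ℝ) (w : ℝ → ℝ≥0∞) (S : Set (ℝ × ℝ)) (α : ℝ) (A : ℝ≥0∞) : Prop :=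
  ∀ (θ : ℝ) (b : ℝ × ℝ → ℂ), |Real.cos θ| + 2 * α ≤ 10 * κ → TS (S ∩ tau θ α) b →
    ∫⁻ t in Icc 0 (2 * R), ∫⁻ x : ℝ × ℝ, w x.1 * ‖W t b x‖ₑ ^ p ≤
      A * supn (Fi b) ^ (p - 2) * l2 b

/-- STEP: one step of the broad-narrow recursion -/
def T_STEP : Prop := ∀ p : ℝ, 2 < p → p ≤ 3 → ∃ C₁ : ℝ≥0, ∀ (η : ℝ) (A₀ : ℝ≥0) (K : ℕ),
  0 < η → 4 ≤ K → ∃ CK : ℝ≥0, ∀ (κ ρ R : ℝ) (w : ℝ → ℝ≥0∞) (S : Set (ℝ × ℝ)),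
  Hyp κ ρ R A₀ w S → ∀ (α : ℝ) (A' : ℝ≥0∞), 0 < α → α ≤ κ → 1 ≤ α ^ 2 * ρ * R →
  PS p κ R w S (α / K) A' →
  PS p κ R w S α (C₁ * A' + CK * ENNReal.ofReal (R ^ (1 + η) * ρ ^ (2 - p / 2)))

/-- SBASE: small apertures -/
def T_SBASE : Prop := ∀ (p : ℝ) (A₀ : ℝ≥0), 2 < p → p ≤ 3 → ∃ C : ℝ≥0,
  ∀ (κ ρ R : ℝ) (w : ℝ → ℝ≥0∞) (S : Set (ℝ × ℝ)), Hyp κ ρ R A₀ w S →
  ∀ α : ℝ, 0 < α → α ≤ κ → α ^ 2 * ρ * R ≤ 1 →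
  PS p κ R w S α (C * ENNReal.ofReal (R * ρ ^ (2 - p / 2)))

/-- SLW: the slab estimate for every aperture -/
def T_SLW : Prop := ∀ (p η : ℝ) (A₀ : ℝ≥0), 2 < p → p ≤ 3 → 0 < η → ∃ C : ℝ≥0,
  ∀ (κ ρ R : ℝ) (w : ℝ → ℝ≥0∞) (S : Set (ℝ × ℝ)), Hyp κ ρ R A₀ w S →
  ∀ α : ℝ, 0 < α → α ≤ κ →
  PS p κ R w S α (C * ENNReal.ofReal (R ^ (1 + η) * ρ ^ (2 - p / 2)))

/-- TRACE: energy on slabs -/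
def T_TRACE : Prop := ∃ C : ℝ≥0, ∀ (κ : ℝ) (w : ℝ → ℝ≥0∞) (b : ℝ × ℝ → ℂ), 0 < κ → κ ≤ 1 →
  Measurable w →
  TS {ξ | 1 / 16 ≤ ξ.1 ^ 2 + ξ.2 ^ 2 ∧ ξ.1 ^ 2 + ξ.2 ^ 2 ≤ 16 ∧
    κ * Real.sqrt (ξ.1 ^ 2 + ξ.2 ^ 2) ≤ ξ.1} b →
  ∫⁻ t : ℝ, ∫⁻ x : ℝ × ℝ, w x.1 * ‖W t b x‖ₑ ^ 2 ≤
    C * ENNReal.ofReal (1 / κ) * (∫⁻ x, w x) * l2 b

/-- `1` for `s ≤ 1`, `0` for `s ≥ 2` -/
noncomputable def eta0 (s : ℝ) : ℝ := Real.smoothTransition (2 - s)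

/-- Littlewood-Paley cutoff, support in `[1/2,2]` -/
noncomputable def chi (s : ℝ) : ℝ := eta0 s - eta0 (2 * s)

/-- `1` on `[1/2,2]`, support in `[1/4,4]` -/
noncomputable def chis (s : ℝ) : ℝ := eta0 (s / 2) - eta0 (4 * s)

/-- the kernel `K_t` with symbol `e(t|ξ|) χ(|ξ|/λ) χ♯(ξ₁/Λ)` -/
noncomputable def KK (t lam Lam : ℝ) (x : ℝ × ℝ) : ℂ :=
  ∫ ξ : ℝ × ℝ, e (x.1 * ξ.1 + x.2 * ξ.2 + t * Real.sqrt (ξ.1 ^ 2 + ξ.2 ^ 2)) *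
    ((chi (Real.sqrt (ξ.1 ^ 2 + ξ.2 ^ 2) / lam) * chis (ξ.1 / Lam) : ℝ) : ℂ)

/-- convolution -/
noncomputable def cv (K g : ℝ × ℝ → ℂ) (x : ℝ × ℝ) : ℂ := ∫ y, K (x - y) * g y

/-- S2D: local smoothing in the plane for `2 < p ≤ 3`, with slab gain -/
def T_S2D : Prop := ∀ p η : ℝ, 2 < p → p ≤ 3 → 0 < η → ∃ C : ℝ≥0, ∀ (lam Lam : ℝ)
  (g : ℝ × ℝ → ℂ) (A : ℝ), 1 ≤ lam → 0 < Lam → Lam ≤ 4 * lam → Measurable g → Integrable g →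
  (∀ y, ‖g y‖ ≤ A) →
  (∫⁻ t in Icc (1 : ℝ) 2, ∫⁻ x, ‖cv (KK t lam Lam) g x‖ₑ ^ p ≤
    C * ENNReal.ofReal (lam ^ η * A ^ (p - 2)) * ∫⁻ y, ‖g y‖ₑ ^ 2) ∧
  (∀ δ : ℝ, 0 < δ →
    ∫⁻ t in Icc (1 : ℝ) 2, ∫⁻ x in {x : ℝ × ℝ | |x.1| ≤ δ}, ‖cv (KK t lam Lam) g x‖ₑ ^ p ≤
      C * ENNReal.ofReal (lam ^ η * (δ * lam / Lam) ^ (2 - p / 2) * A ^ (p - 2)) *
        ∫⁻ y, ‖g y‖ₑ ^ 2)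

/-- KL1: `L¹` norm and tail in `x₁` of the kernel -/
def T_KL1 : Prop :=
  (∃ C : ℝ≥0, ∀ lam Lam t : ℝ, 1 ≤ lam → 0 < Lam → Lam ≤ 4 * lam → 0 ≤ t → t ≤ 2 →
    ∫⁻ x, ‖KK t lam Lam x‖ₑ ≤ C * ENNReal.ofReal (Real.sqrt lam)) ∧
  (∀ N : ℕ, ∃ C : ℝ≥0, ∀ lam Lam t D : ℝ, 1 ≤ lam → 0 < Lam → Lam ≤ 4 * lam → 0 ≤ t → t ≤ 2 →
    1000 * Lam / lam ≤ D → 1 ≤ min (Real.sqrt lam) Lam * D →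
    ∫⁻ x in {x : ℝ × ℝ | D ≤ |x.1|}, ‖KK t lam Lam x‖ₑ ≤
      C * ENNReal.ofReal (Real.sqrt lam / (min (Real.sqrt lam) Lam * D) ^ N))

end Pool.Agent.H27.L1.H83.LS
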